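import Mathlib
/-!
# Integral linear forms of dilations at a rational point
-/

set_option autoImplicit false

namespace Pool.Agent.W2helper64.DP

open Finset

theorem icop {x y : ℤ} (h : ∀ p : ℕ, p.Prime → ¬ ((p : ℤ) ∣ x ∧ (p : ℤ) ∣ y)) : IsCoprime x y := by
  rw [Int.isCoprime_iff_gcd_eq_one]
  by_contra hne
  obtain ⟨p, hp, hd⟩ := Nat.exists_prime_and_dvd hne
  exact h p hp ⟨(Int.natCast_dvd_natCast.2 hd).trans (Int.gcd_dvd_left _ _),
    (Int.natCast_dvd_natCast.2 hd).trans (Int.gcd_dvd_right _ _)⟩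

/-- the dilation by `u` at the point `c / d` satisfies the local conditions -/
def Loc (c d : ℤ) (u : ℚ) : Prop :=
  0 < u ∧ (∀ p : ℕ, p.Prime → (p : ℤ) ∣ c → ¬ (p : ℤ) ∣ u.num ∧ ¬ (p : ℤ) ∣ u.den) ∧
    ∀ p : ℕ, p.Prime → (p : ℤ) ∣ d → (p : ℤ) * d ∣ u.num - u.den

theorem coprime_num_den {c d : ℤ} {u : ℚ} (h : Loc c d u) {p : ℕ} (hp : p.Prime)
    (hpc : (p : ℤ) ∣ c * d) : ¬ (p : ℤ) ∣ u.num ∧ ¬ (p : ℤ) ∣ u.den := by
  have hpp := Nat.prime_iff_prime_int.1 hp
  rcases hpp.dvd_or_dvd hpc with h1 | h1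
  · exact h.2.1 p hp h1
  · have h2 : (p : ℤ) ∣ u.num - u.den := (dvd_mul_right _ _).trans (h.2.2 p hp h1)
    have hcop : IsCoprime u.num (u.den : ℤ) := by
      rw [Int.isCoprime_iff_nat_coprime]
      simpa using u.reduced
    constructor
    · intro h3
      have h4 : (p : ℤ) ∣ u.den := by
        have := dvd_sub h3 h2
        rwa [sub_sub_cancel] at this
      exact hpp.not_isUnit (hcop.isUnit_of_dvd' h3 h4)
    · intro h3
      have h4 : (p : ℤ) ∣ u.num := by
        have := dvd_add h2 h3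
        rwa [sub_add_cancel] at this
      exact hpp.not_isUnit (hcop.isUnit_of_dvd' h4 h3)

/-- a common progression for finitely many dilations -/
theorem forms {ι : Type} [Fintype ι] (c d : ℤ) (hd : 1 ≤ d) (z : ℕ)
    (u : ι → ℚ) (hu : ∀ x, Loc c d (u x)) :
    ∃ α g : ι → ℤ, (∀ x, 0 < α x ∧ IsCoprime (α x) (g x)) ∧
      (∀ x y, α x = α y → u x = u y) ∧
      (∀ p : ℕ, p.Prime → p ≤ z → ∃ n : ℤ, ∀ x, ¬ (p : ℤ) ∣ α x * n + g x) ∧
      ∀ x y, ∀ n : ℤ, (d : ℚ) * ((α y * n + g y : ℤ) : ℚ) - c =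
        (u y / u x) * ((d : ℚ) * ((α x * n + g x : ℤ) : ℚ) - c) := by
  classical
  have hd0 : d ≠ 0 := by omega
  -- numerators and denominators
  have hN : ∀ x, 0 < (u x).num := fun x => Rat.num_pos.2 (hu x).1
  have hE : ∀ x, (0 : ℤ) < (u x).den := fun x => by exact_mod_cast (u x).den_pos
  have hbad : ∀ x, ∀ p : ℕ, p.Prime → (p : ℤ) ∣ c * d → ¬ (p : ℤ) ∣ (u x).num ∧ ¬ (p : ℤ) ∣ (u x).den :=
    fun x p hp h => coprime_num_den (hu x) hp h
  set Q0 : ℤ := ∏ x, ((u x).num * (u x).den) with hQ0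
  set Q1 : ℤ := ∏ p ∈ (Icc 1 z).filter (fun p : ℕ => p.Prime ∧ ¬ (p : ℤ) ∣ c * d), (p : ℤ) with hQ1
  have hQ0p : 0 < Q0 := prod_pos fun x _ => mul_pos (hN x) (hE x)
  have hQ1p : 0 < Q1 := prod_pos fun p hp => by
    exact_mod_cast (mem_filter.1 hp).2.1.pos
  have hQ0c : ∀ p : ℕ, p.Prime → (p : ℤ) ∣ c * d → ¬ (p : ℤ) ∣ Q0 := by
    intro p hp h1 h2
    have hpp := Nat.prime_iff_prime_int.1 hp
    obtain ⟨x, -, hx⟩ := (hpp.dvd_finsetProd_iff _).1 h2
    rcases hpp.dvd_or_dvd hx with h3 | h3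
    · exact (hbad x p hp h1).1 h3
    · exact (hbad x p hp h1).2 h3
  have hQ1c : ∀ p : ℕ, p.Prime → (p : ℤ) ∣ c * d → ¬ (p : ℤ) ∣ Q1 := by
    intro p hp h1 h2
    have hpp := Nat.prime_iff_prime_int.1 hp
    obtain ⟨q, hq, hx⟩ := (hpp.dvd_finsetProd_iff _).1 h2
    have h3 := (mem_filter.1 hq).2
    have h4 : p = q := (Nat.prime_dvd_prime_iff_eq hp h3.1).1 (Int.natCast_dvd_natCast.1 hx)
    exact h3.2 (h4 ▸ h1)
  set D : ℤ := Q0 * Q1 with hD
  have hDp : 0 < D := mul_pos hQ0p hQ1p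
  have hDc : ∀ p : ℕ, p.Prime → (p : ℤ) ∣ c * d → ¬ (p : ℤ) ∣ D := by
    intro p hp h1 h2
    rcases (Nat.prime_iff_prime_int.1 hp).dvd_or_dvd h2 with h3 | h3
    · exact hQ0c p hp h1 h3
    · exact hQ1c p hp h1 h3
  have hdD : IsCoprime d D := by
    apply icop
    rintro p hp ⟨h1, h2⟩
    exact hDc p hp (Dvd.dvd.mul_left h1 _) h2
  -- `d e - c = D w`
  obtain ⟨s, t, hst⟩ := hdD
  set e : ℤ := c * s with he
  set w : ℤ := -(c * t) with hw
  have hde : d * e - c = D * w := by
    rw [he, hw]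
    linear_combination c * hst
  -- the cofactors
  have hdvd : ∀ x, ((u x).den : ℤ) ∣ Q0 := fun x =>
    (dvd_mul_left _ _).trans (dvd_prod_of_mem (fun x => (u x).num * ((u x).den : ℤ)) (mem_univ x))
  choose D0 hD0 using hdvd
  set α : ι → ℤ := fun x => (u x).num * (D0 x * Q1) with hα
  have hD' : ∀ x, D = (u x).den * (D0 x * Q1) := fun x => by
    rw [hD, hD0 x]; ring
  have hDx : ∀ x, 0 < D0 x * Q1 := fun x => by
    have h1 := hD' x
    by_contra hneg
    push Not at hneg
    have := mul_nonpos_of_nonneg_of_nonpos (hE x).le hneg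
    linarith
  have hαp : ∀ x, 0 < α x := fun x => mul_pos (hN x) (hDx x)
  have hαQ : ∀ x, (α x) * (u x).den = (u x).num * D := fun x => by
    rw [hα, hD' x]; ring
  have hddvd : ∀ x, d ∣ (u x).den - (u x).num := by
    intro x
    by_cases h1 : d = 1
    · rw [h1]; exact one_dvd _
    · obtain ⟨p, hp, hpd⟩ := Nat.exists_prime_and_dvd (n := d.natAbs) (by omega)
      have h2 := (hu x).2.2 p hp (Int.natCast_dvd.2 hpd)
      have h3 : d ∣ (u x).num - (u x).den := (dvd_mul_left _ _).trans h2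
      rw [← neg_sub]
      exact h3.neg_right
  have hdE : ∀ x, IsCoprime d (u x).den := by
    intro x
    apply icop
    rintro p hp ⟨h1, h2⟩
    exact (hbad x p hp (Dvd.dvd.mul_left h1 _)).2 h2
  have hg : ∀ x, ∃ g : ℤ, d * g = c + α x * w := by
    intro x
    have h1 : (u x).den * (c + α x * w) = c * ((u x).den - (u x).num) + (u x).num * (d * e) := by
      linear_combination w * hαQ x - (u x).num * hde
    have h2 : d ∣ ((u x).den : ℤ) * (c + α x * w) := by
      rw [h1]
      exact dvd_add (Dvd.dvd.mul_left (hddvd x) _) (Dvd.dvd.mul_left (dvd_mul_right _ _) _)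
    obtain ⟨g, hg⟩ := (hdE x).dvd_of_dvd_mul_left h2
    exact ⟨g, hg.symm⟩
  choose g hg using hg
  -- the main identity
  have hid : ∀ x (n : ℤ), (u x).den * (d * (α x * n + g x)) =
      c * ((u x).den - (u x).num) + (u x).num * (d * (D * n + e)) := by
    intro x n
    linear_combination (u x).den * hg x + (w + d * n) * hαQ x - (u x).num * hde
  refine ⟨α, g, fun x => ⟨hαp x, ?_⟩, ?_, ?_, ?_⟩
  · -- coprime
    apply icop
    rintro p hp ⟨h1, h2⟩
    have hpp := Nat.prime_iff_prime_int.1 hp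
    have h3 : (p : ℤ) ∣ c := by
      have h4 : c = d * g x - α x * w := by rw [hg x]; ring
      rw [h4]
      exact dvd_sub (Dvd.dvd.mul_left h2 _) (Dvd.dvd.mul_right h1 _)
    have h4 := hDc p hp (Dvd.dvd.mul_right h3 _)
    have h5 := hbad x p hp (Dvd.dvd.mul_right h3 _)
    have h6 : (p : ℤ) ∣ (u x).num * D := by
      rw [← hαQ x]
      exact Dvd.dvd.mul_right h1 _
    rcases hpp.dvd_or_dvd h6 with h7 | h7
    · exact h5.1 h7
    · exact h4 h7
  · intro x y hxy
    have h1 := hαQ x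
    have h2 := hαQ y
    have hDq : (D : ℚ) ≠ 0 := by exact_mod_cast hDp.ne'
    have hval : ∀ x, u x = (α x : ℚ) / D := by
      intro x
      have hEq : ((u x).den : ℚ) ≠ 0 := by exact_mod_cast (u x).den_nz
      have h3 : (α x : ℚ) * (u x).den = (u x).num * D := by exact_mod_cast hαQ x
      rw [eq_div_iff hDq, ← mul_left_inj' hEq, h3]
      have h4 : u x * (u x).den = (u x).num := Rat.mul_den_eq_num (u x)
      calc u x * D * (u x).den = (u x * (u x).den) * D := by ring
        _ = _ := by rw [h4]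
    rw [hval x, hval y, hxy]
  · intro p hp hpz
    have hpp := Nat.prime_iff_prime_int.1 hp
    by_cases hpc : (p : ℤ) ∣ c * d
    · -- choose `D n + e ≡ 1`
      have hcop : IsCoprime D (p : ℤ) := by
        apply icop
        rintro r hr ⟨h1, h2⟩
        have h3 := (Nat.prime_dvd_prime_iff_eq hr hp).1 (Int.natCast_dvd_natCast.1 h2)
        subst h3
        exact hDc r hr hpc h1
      obtain ⟨s', t', hst'⟩ := hcop
      refine ⟨(1 - e) * s', fun x hx => ?_⟩
      have h1 : D * ((1 - e) * s') + e = 1 - (1 - e) * t' * p := by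
        linear_combination (1 - e) * hst'
      have hcop2 := hbad x p hp hpc
      have hunit : ¬ (p : ℤ) ∣ D * ((1 - e) * s') + e := by
        rw [h1]
        intro h2
        have h3 := dvd_add h2 (dvd_mul_left (p : ℤ) ((1 - e) * t'))
        rw [sub_add_cancel] at h3
        exact hpp.not_isUnit (isUnit_of_dvd_one h3)
      have h2 := hid x ((1 - e) * s')
      by_cases hpd : (p : ℤ) ∣ d
      · -- divide the identity by `d`
        obtain ⟨v, hv⟩ := (hu x).2.2 p hp hpd
        have h3 : (u x).den * (α x * ((1 - e) * s') + g x) =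
            -(c * (p * v)) + (u x).num * (D * ((1 - e) * s') + e) := by
          have h4 : d * ((u x).den * (α x * ((1 - e) * s') + g x)) =
              d * (-(c * (p * v)) + (u x).num * (D * ((1 - e) * s') + e)) := by
            linear_combination h2 - c * hv
          exact mul_left_cancel₀ hd0 h4
        have h5 : (p : ℤ) ∣ (u x).num * (D * ((1 - e) * s') + e) := by
          have h6 : (u x).num * (D * ((1 - e) * s') + e) =
              (u x).den * (α x * ((1 - e) * s') + g x) + c * (p * v) := by rw [h3]; ring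
          rw [h6]
          exact dvd_add (Dvd.dvd.mul_left hx _) (Dvd.dvd.mul_left (dvd_mul_right _ _) _)
        rcases hpp.dvd_or_dvd h5 with h6 | h6
        · exact hcop2.1 h6
        · exact hunit h6
      · have hpc' : (p : ℤ) ∣ c := (hpp.dvd_or_dvd hpc).resolve_right hpd
        have h5 : (p : ℤ) ∣ (u x).num * (d * (D * ((1 - e) * s') + e)) := by
          have h6 : (u x).num * (d * (D * ((1 - e) * s') + e)) =
              (u x).den * (d * (α x * ((1 - e) * s') + g x)) - c * ((u x).den - (u x).num) := by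
            rw [h2]; ring
          rw [h6]
          exact dvd_sub (Dvd.dvd.mul_left (Dvd.dvd.mul_left hx _) _) (Dvd.dvd.mul_right hpc' _)
        rcases hpp.dvd_or_dvd h5 with h6 | h6
        · exact hcop2.1 h6
        · rcases hpp.dvd_or_dvd h6 with h7 | h7
          · exact hpd h7
          · exact hunit h7
    · -- `p` divides all the `α`
      refine ⟨0, fun x hx => hpc ?_⟩
      rw [mul_zero, zero_add] at hx
      have h1 : (p : ℤ) ∣ Q1 := dvd_prod_of_mem (fun p : ℕ => (p : ℤ))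
        (mem_filter.2 ⟨mem_Icc.2 ⟨hp.one_lt.le, hpz⟩, hp, hpc⟩)
      have h2 : (p : ℤ) ∣ α x := by
        rw [hα]
        exact Dvd.dvd.mul_left (Dvd.dvd.mul_left h1 _) _
      have h3 : (p : ℤ) ∣ c := by
        have h4 : c = d * g x - α x * w := by rw [hg x]; ring
        rw [h4]
        exact dvd_sub (Dvd.dvd.mul_left hx _) (Dvd.dvd.mul_right h2 _)
      exact Dvd.dvd.mul_right h3 _
  · intro x y n
    have hval : ∀ x, (d : ℚ) * ((α x * n + g x : ℤ) : ℚ) - c = u x * (d * (D * n + e) - c) := by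
      intro x
      have hEq : ((u x).den : ℚ) ≠ 0 := by exact_mod_cast (u x).den_nz
      have h3 : ((u x).den : ℚ) * (d * ((α x * n + g x : ℤ) : ℚ)) =
          c * ((u x).den - (u x).num) + (u x).num * (d * (D * n + e)) := by
        exact_mod_cast hid x n
      have h4 : u x * (u x).den = (u x).num := Rat.mul_den_eq_num (u x)
      rw [← mul_right_inj' hEq]
      linear_combination h3 + (d * (D * n + e) - c) * (-1) * h4
    rw [hval x, hval y]
    have hux : u x ≠ 0 := (hu x).1.ne'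
    field_simp

end Pool.Agent.W2helper64.DP
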