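import Mathlib
import Pool.Agent.R493.SI.Nest
/-!
# The share of the common good elements in every almost invariant finite subset of a countable group

After `Pool.Agent.R493.MU.winM` (multiplicative semigroup of the positive integers).
-/

set_option autoImplicit false

namespace Pool.Agent.W2helper64.DP

open Finset Filter
open Pool.Agent.R493.OT (prs card_prs)
open Pool.Agent.R493.SI (mR mR_pos densN AllR Cliques)

/-- the elements in `C ρ` are quotients of the members of large cliques, for all `ρ`, in all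
systems of disjoint classes of elements of the group -/
def QuotCliques {G : Type} [Group G] {R : ℕ} (K : ℕ) (C : Fin R → G → Prop) : Prop :=
  ∀ (m : ℕ) (ρ : Fin R) (t : Finset (Fin m)), t.card ≤ mR R + 1 → ∀ A : Fin m → Fin K → G,
      (∀ i, Function.Injective (A i)) → (∀ i j, i < j → ∀ k k', A i k ≠ A j k') →
      ∃ S ⊆ t, 5 * t.card ≤ 18 * S.card ∧ ∃ c : Fin m → Fin K,
        ∀ i ∈ S, ∀ j ∈ S, i < j → C ρ ((A i (c i))⁻¹ * A j (c j))

open Classical in
theorem winG {G : Type} [Group G] [Infinite G] (enc : G → ℕ) (R K : ℕ)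
    (C : Fin R → G → Prop) (h4 : QuotCliques K C)
    (ε : ℝ) (hε : 0 < ε) : ∃ n : ℕ, 1 ≤ n ∧ ∀ F : Finset G, F.Nonempty →
      (∀ s : G, enc s ≤ n →
        (1 - 1 / (n : ℝ)) * F.card ≤ ((F.filter (fun D => s * D ∈ F)).card : ℝ)) →
      (1 / (mR R : ℝ) - ε) * F.card ≤ ((F.filter (fun D => ∀ ρ, C ρ D)).card : ℝ) := by
  by_contra hcon
  push Not at hcon
  choose! F hFne hFinv hbad using hcon
  -- the sets are large
  have hFc : ∀ N : ℕ, ∃ n0 : ℕ, ∀ n, n0 ≤ n → N ≤ (F n).card := by
    intro N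
    obtain ⟨T, hT⟩ := Infinite.exists_subset_card_eq G N
    refine ⟨N + T.sup enc + 1, fun n hn => ?_⟩
    by_contra hlt
    push Not at hlt
    have hn1 : 1 ≤ n := by omega
    obtain ⟨f, hf⟩ := hFne n hn1
    have hall : ∀ s ∈ T, s * f ∈ F n := by
      intro s hs
      have h0 : enc s ≤ n := (Finset.le_sup (f := enc) hs).trans (by omega)
      have h1 := hFinv n hn1 s h0
      have hn0 : (0 : ℝ) < n := by exact_mod_cast hn1
      have h2 : ((F n).card : ℝ) - 1 < (((F n).filter (fun D => s * D ∈ F n)).card : ℝ) := by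
        have h3 : 1 / (n : ℝ) * (F n).card < 1 := by
          rw [one_div, inv_mul_lt_iff₀ hn0, mul_one]
          exact_mod_cast (by omega : (F n).card < n)
        nlinarith
      have h3 : (F n).card ≤ ((F n).filter (fun D => s * D ∈ F n)).card := by
        have h4 : ((F n).card : ℝ) < (((F n).filter (fun D => s * D ∈ F n)).card : ℝ) + 1 := by
          linarith
        have h5 : (F n).card < ((F n).filter (fun D => s * D ∈ F n)).card + 1 := by
          exact_mod_cast h4
        omega
      have h4 := Finset.eq_of_subset_of_card_le (filter_subset _ _) h3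
      have h6 : f ∈ (F n).filter (fun D => s * D ∈ F n) := by rw [h4]; exact hf
      exact (mem_filter.1 h6).2
    have h7 : T.card ≤ (F n).card :=
      card_le_card_of_injOn (fun s => s * f) (fun s hs => hall s hs)
        (fun s _ s' _ h => mul_right_cancel h)
    omega
  choose n0 hn0 using hFc
  have hr1 : (1 : ℝ) ≤ (mR R : ℝ) := by exact_mod_cast mR_pos R
  have hr1' : 1 / (mR R : ℝ) ≤ 1 := by
    rw [div_le_one (by linarith)]
    exact hr1
  obtain ⟨m, hm⟩ := exists_nat_gt (4 / ε + 4)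
  have hm4 : (4 : ℝ) < m := by
    have : 0 < 4 / ε := by positivity
    linarith
  have hm0 : (0 : ℝ) < m := by linarith
  obtain ⟨N, hN1, hN⟩ := densN R m K
  set η : ℝ := min (ε / 4) (1 / 2) with hη
  have hη0 : 0 < η := lt_min (by positivity) (by norm_num)
  have hηε : η ≤ ε / 4 := min_le_left _ _
  have hη2 : η ≤ 1 / 2 := min_le_right _ _
  obtain ⟨f, hf1, hf2⟩ := exists_seq_of_forall_finset_exists
    (fun n : ℕ => 1 ≤ n ∧ 2 * N + 2 ≤ (F n).card)
    (fun n n' : ℕ => (m : ℝ) * (F n).card ≤ η * (F n').card ∧ 1 / (n' : ℝ) ≤ η ∧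
      ∀ a ∈ F n, enc a⁻¹ ≤ n') (by
      intro S _
      have e1 : ∀ᶠ n' : ℕ in atTop, ∀ n ∈ S, (m : ℝ) * (F n).card ≤ η * (F n').card ∧
          1 / (n' : ℝ) ≤ η ∧ ∀ a ∈ F n, enc a⁻¹ ≤ n' := by
        rw [Filter.eventually_all_finset]
        intro n _
        have t1 : Tendsto (fun n' : ℕ => η * (n' : ℝ)) atTop atTop :=
          Tendsto.const_mul_atTop hη0 tendsto_natCast_atTop_atTop
        obtain ⟨M, hM⟩ := exists_nat_ge ((m : ℝ) * (F n).card / η)
        filter_upwards [t1.eventually_ge_atTop 1, eventually_ge_atTop 1, eventually_ge_atTop (n0 M),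
          eventually_ge_atTop ((F n).sup (fun a => enc a⁻¹))] with n' h2 h3 h4 h5
        refine ⟨?_, ?_, fun a ha => (Finset.le_sup (f := fun a => enc a⁻¹) ha).trans h5⟩
        · have h6 : (M : ℝ) ≤ (F n').card := by exact_mod_cast hn0 M n' h4
          have h7 := hM.trans h6
          rw [div_le_iff₀ hη0] at h7
          linarith
        · have h6 : (0 : ℝ) < n' := by exact_mod_cast h3
          rw [div_le_iff₀ h6]
          exact h2
      obtain ⟨n, ⟨h1, h2⟩, h3⟩ := (((eventually_ge_atTop 1).and (eventually_ge_atTop (n0 (2 * N + 2)))).and e1).exists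
      exact ⟨n, ⟨h1, hn0 _ n h2⟩, h3⟩)
  have hTN : ∀ n, 2 * N + 2 ≤ (F (f n)).card := fun n => (hf1 n).2
  have hTr : ∀ n, (0 : ℝ) < (F (f n)).card := fun n => by
    have := hTN n
    exact_mod_cast (by omega : 0 < (F (f n)).card)
  -- the parts of the sets which are not in the union of the previous ones
  set W : ℕ → Finset G := fun n => F (f n) \ (range n).biUnion (fun i => F (f i)) with hW
  have hWc' : ∀ n, n < m → (1 - η) * ((F (f n)).card : ℝ) ≤ ((W n).card : ℝ) := fun n hnm => by
    have h1 : (F (f n)).card ≤ (W n).card + ((range n).biUnion (fun i => F (f i))).card := by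
      have h := Finset.card_le_card_sdiff_add_card (s := F (f n)) (t := (range n).biUnion (fun i => F (f i)))
      exact h
    have h2 : ((((range n).biUnion (fun i => F (f i))).card : ℕ) : ℝ) ≤ η * (F (f n)).card := by
      have h3 : ((((range n).biUnion (fun i => F (f i))).card : ℕ) : ℝ) ≤
          ∑ i ∈ range n, ((F (f i)).card : ℝ) := by exact_mod_cast card_biUnion_le
      refine h3.trans ?_
      have h4 : ∀ i ∈ range n, ((F (f i)).card : ℝ) ≤ η * (F (f n)).card / m := by
        intro i hi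
        rw [le_div_iff₀ hm0, mul_comm]
        exact (hf2 i n (mem_range.1 hi)).1
      refine (sum_le_sum h4).trans ?_
      rw [sum_const, card_range, nsmul_eq_mul, mul_div_assoc']
      rw [div_le_iff₀ hm0]
      have h5 : (0 : ℝ) ≤ η * (F (f n)).card := mul_nonneg hη0.le (Nat.cast_nonneg _)
      have h6 : (n : ℝ) ≤ m := by exact_mod_cast hnm.le
      nlinarith
    have h3 : ((F (f n)).card : ℝ) ≤ (W n).card + ((((range n).biUnion (fun i => F (f i))).card : ℕ) : ℝ) := by
      exact_mod_cast h1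
    linarith
  have hWN : ∀ n, n < m → N + 1 ≤ (W n).card := fun n hnm => by
    have h1 := hWc' n hnm
    have h2 : ((2 * N + 2 : ℕ) : ℝ) ≤ (F (f n)).card := by exact_mod_cast hTN n
    push_cast at h2
    have h3 : ((N + 1 : ℕ) : ℝ) ≤ (W n).card := by
      push_cast
      have hN0 : (0 : ℝ) ≤ N := Nat.cast_nonneg _
      nlinarith
    exact_mod_cast h3
  have hmain := hN G (fun ρ _ _ a b => C ρ (a⁻¹ * b)) (fun i : Fin m => W i)
    (fun i => by
      show N ≤ (W i).card
      have := hWN i i.2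
      omega) (by
      intro ρ t ht A hA hmem
      refine h4 m ρ t ht A hA ?_
      intro i j hij k k' heq
      have h1 := (mem_sdiff.1 (hmem i k)).1
      have h2 := (mem_sdiff.1 (hmem j k')).2
      apply h2
      rw [mem_biUnion]
      exact ⟨i, mem_range.2 hij, by rw [← heq]; exact h1⟩)
  -- one pair
  have hpair : ∀ p ∈ prs m,
      ((∑ a ∈ W p.1, ∑ b ∈ W p.2,
        (if AllR (fun (ρ : Fin R) (_ _ : Fin m) (a b : G) => C ρ (a⁻¹ * b)) p.1 p.2 a b
          then (1 : ℝ) else 0)) /
        (((W p.1).card : ℝ) * ((W p.2).card : ℝ))) ≤ 1 / (mR R : ℝ) - ε / 2 := by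
    intro p hp
    have hlt : (p.1 : ℕ) < p.2 := (mem_filter.1 hp).2
    obtain ⟨hrel, hrel2, hrel3⟩ := hf2 _ _ hlt
    have hpos : ∀ n, n < m → (0 : ℝ) < (W n).card := fun n hn => by
      have := hWN n hn
      exact_mod_cast (by omega : 0 < (W n).card)
    have h0 : (0 : ℝ) < ((W p.1).card : ℝ) * ((W p.2).card : ℝ) := mul_pos (hpos _ p.1.2) (hpos _ p.2.2)
    rw [div_le_iff₀ h0]
    set Gd := (F (f p.2)).filter (fun k => ∀ ρ, C ρ k) with hGd
    have h9 : (Gd.card : ℝ) < (1 / (mR R : ℝ) - ε) * (F (f p.2)).card := hbad (f p.2) (hf1 _).1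
    have hpos2 : 0 < 1 / (mR R : ℝ) - ε := by
      by_contra hneg
      push Not at hneg
      have h10 := mul_nonpos_of_nonpos_of_nonneg hneg (hTr p.2).le
      have h11 : (0 : ℝ) ≤ Gd.card := Nat.cast_nonneg _
      linarith
    have hrow : ∀ a ∈ W p.1, ∑ b ∈ W p.2,
        (if AllR (fun (ρ : Fin R) (_ _ : Fin m) (a b : G) => C ρ (a⁻¹ * b)) p.1 p.2 a b
          then (1 : ℝ) else 0) ≤ (1 / (mR R : ℝ) - ε / 2) * ((W p.2).card : ℝ) := by
      intro a ha
      have haF := (mem_sdiff.1 ha).1
      have e1 : ∑ b ∈ W p.2,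
        (if AllR (fun (ρ : Fin R) (_ _ : Fin m) (a b : G) => C ρ (a⁻¹ * b)) p.1 p.2 a b
          then (1 : ℝ) else 0) = (((W p.2).filter (fun b =>
          AllR (fun (ρ : Fin R) (_ _ : Fin m) (a b : G) => C ρ (a⁻¹ * b)) p.1 p.2 a b)).card : ℝ) := by
        rw [Finset.card_filter]
        push_cast
        rfl
      rw [e1]
      have hinv := hFinv (f p.2) (hf1 _).1 a⁻¹ (hrel3 a haF)
      set I := (F (f p.2)).filter (fun D => a⁻¹ * D ∈ F (f p.2)) with hI
      have h5 : (W p.2).filter (fun b =>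
          AllR (fun (ρ : Fin R) (_ _ : Fin m) (a b : G) => C ρ (a⁻¹ * b)) p.1 p.2 a b) ⊆
          Gd.image (fun k => a * k) ∪ (F (f p.2) \ I) := by
        intro b hb
        obtain ⟨h6, h7⟩ := mem_filter.1 hb
        have hbF := (mem_sdiff.1 h6).1
        by_cases h8 : b ∈ I
        · refine Finset.mem_union_left _ (mem_image.2 ⟨a⁻¹ * b, mem_filter.2 ⟨(mem_filter.1 h8).2, fun ρ => h7 ρ⟩, ?_⟩)
          simp
        · exact Finset.mem_union_right _ (Finset.mem_sdiff.2 ⟨hbF, h8⟩)
      have h6 := (card_le_card h5).trans (card_union_le _ _)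
      have h7 : (Gd.image (fun k => a * k)).card ≤ Gd.card := card_image_le
      have h8 : ((F (f p.2) \ I).card : ℝ) ≤ η * (F (f p.2)).card := by
        rw [card_sdiff_of_subset (filter_subset _ _), Nat.cast_sub (card_filter_le _ _)]
        have h10 : 1 / ((f p.2 : ℕ) : ℝ) * (F (f p.2)).card ≤ η * (F (f p.2)).card :=
          mul_le_mul_of_nonneg_right hrel2 (Nat.cast_nonneg _)
        linarith
      have h6r : (((W p.2).filter (fun b =>
          AllR (fun (ρ : Fin R) (_ _ : Fin m) (a b : G) => C ρ (a⁻¹ * b)) p.1 p.2 a b)).card : ℝ) ≤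
          Gd.card + ((F (f p.2) \ I).card : ℝ) := by
        exact_mod_cast h6.trans (Nat.add_le_add_right h7 _)
      have h13 := hTr p.2
      have h14 := hWc' p.2 p.2.2
      have h15 : 0 < 1 / (mR R : ℝ) - ε / 2 := by linarith
      refine le_trans ?_ (mul_le_mul_of_nonneg_left h14 h15.le)
      refine (h6r.trans (add_le_add h9.le h8)).trans ?_
      rw [← add_mul, ← mul_assoc]
      apply mul_le_mul_of_nonneg_right _ h13.le
      nlinarith
    refine (Finset.sum_le_sum hrow).trans ?_
    rw [Finset.sum_const, nsmul_eq_mul]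
    apply le_of_eq
    ring
  have hsum := Finset.sum_le_sum hpair
  rw [Finset.sum_const, nsmul_eq_mul, card_prs] at hsum
  have h11 := hmain.trans hsum
  have h13 : 4 / ε * ε = 4 := by field_simp
  have h14 : (4 / ε + 4) * ε < m * ε := mul_lt_mul_of_pos_right hm hε
  have h15 : 0 < 1 / (mR R : ℝ) := by positivity
  have h16 : (m : ℝ) ^ 2 / (mR R : ℝ) = m ^ 2 * (1 / (mR R : ℝ)) := by ring
  rw [h16] at h11
  set x : ℝ := 1 / (mR R : ℝ)
  nlinarith

end Pool.Agent.W2helper64.DP
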