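import Mathlib
import Pool.Agent.R493.SI.Cls
import Pool.Agent.N694.OB.Aff
import Pool.Agent.W2helper64.DP.Win
import Pool.Agent.W2helper64.DP.Forms
/-!
# Dilations at several points which send many primes to primes
-/

set_option autoImplicit false

namespace Pool.Agent.W2helper64.DP

open Finset Filter
open Pool.Agent.R493.SI (mR mR_pos classes)
open Pool.Agent.Y827.GS (cntN)
open Pool.Agent.N694.OB (growthA)

/-- for arbitrarily large `x` there are at least `x / (log x) ^ B` primes `q ≤ x` for which there is a prime `p`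
with `d p - c = u (d q - c)` -/
def Good (B : ℕ) (c d : ℤ) (u : ℚ) : Prop :=
  ∃ᶠ x : ℕ in atTop, (x : ℝ) / (Real.log x) ^ B ≤
    ({q : ℕ | q ≤ x ∧ q.Prime ∧ ∃ p : ℕ, p.Prime ∧ (d : ℚ) * p - c = u * (d * q - c)}.ncard : ℝ)

theorem good_of_cnt {B : ℕ} {c d : ℤ} {v : ℚ} {a g a' g' : ℤ} (ha : 0 < a)
    {F : Finset (ℤ × ℤ)} (h1 : (a, g) ∈ F) (h2 : (a', g') ∈ F)
    (hrel : ∀ n : ℤ, (d : ℚ) * ((a' * n + g' : ℤ) : ℚ) - c = v * ((d : ℚ) * ((a * n + g : ℤ) : ℚ) - c))
    (h : ∃ᶠ N : ℕ in atTop, (N : ℝ) / (Real.log N) ^ B ≤ (cntN F N : ℝ)) : Good (B + 1) c d v := by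
  set P : ℕ := a.natAbs with hP
  set D : ℕ := g.natAbs with hD
  have hP1 : 1 ≤ P := by omega
  have htend : Tendsto (fun N : ℕ => P * N + D) atTop atTop := by
    refine tendsto_atTop_mono (fun N => ?_) tendsto_id
    show N ≤ P * N + D
    nlinarith
  refine htend.frequently ((h.and_eventually (growthA P D B)).mono ?_)
  rintro N ⟨hN, hgr⟩
  refine hgr.trans ?_
  have hfin : {q : ℕ | q ≤ P * N + D ∧ q.Prime ∧ ∃ p : ℕ, p.Prime ∧ (d : ℚ) * p - c = v * (d * q - c)}.Finite :=
    (Set.finite_Iic (P * N + D)).subset (fun q hq => hq.1)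
  have hle : cntN F N ≤
      {q : ℕ | q ≤ P * N + D ∧ q.Prime ∧ ∃ p : ℕ, p.Prime ∧ (d : ℚ) * p - c = v * (d * q - c)}.ncard := by
    have e1 : cntN F N = (((Icc 1 N).filter (fun n : ℕ => ∀ f ∈ F,
        (f.1 * (n : ℤ) + f.2).toNat.Prime)).image (fun n : ℕ => (a * n + g).toNat)).card := by
      rw [card_image_of_injOn]
      · rfl
      · intro n hn n' hn' he
        rw [mem_coe, mem_filter] at hn hn'
        have hp := hn.2 _ h1
        have hp' := hn'.2 _ h1
        simp only at hp hp' he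
        have hpos : 0 < (a * n + g).toNat := hp.pos
        have hpos' : 0 < (a * n' + g).toNat := hp'.pos
        have h5 : a * n + g = a * n' + g := by omega
        have h6 : a * ((n : ℤ) - n') = 0 := by linarith
        rcases mul_eq_zero.1 h6 with h7 | h7
        · exact absurd h7 ha.ne'
        · omega
    rw [e1, ← Set.ncard_coe_finset]
    apply Set.ncard_le_ncard _ hfin
    intro q hq
    rw [mem_coe, mem_image] at hq
    obtain ⟨n, hn, rfl⟩ := hq
    obtain ⟨hn1, hn2⟩ := mem_filter.1 hn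
    have hp := hn2 _ h1
    have hp' := hn2 _ h2
    simp only at hp hp'
    have hpos : 0 < (a * n + g).toNat := hp.pos
    have hpos' : 0 < (a' * n + g').toNat := hp'.pos
    have e2 : ((a * n + g).toNat : ℤ) = a * n + g := Int.toNat_of_nonneg (by omega)
    have e3 : ((a' * n + g').toNat : ℤ) = a' * n + g' := Int.toNat_of_nonneg (by omega)
    refine ⟨?_, hp, (a' * n + g').toNat, hp', ?_⟩
    · have h8 : a * (n : ℤ) ≤ P * N := by
        have h9 : (P : ℤ) = a := by rw [hP, Int.natCast_natAbs, abs_of_pos ha]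
        rw [h9]
        exact mul_le_mul_of_nonneg_left (by exact_mod_cast (mem_Icc.1 hn1).2) ha.le
      have h10 : a * (n : ℤ) + g ≤ ((P * N + D : ℕ) : ℤ) := by
        push_cast
        have : g ≤ (D : ℤ) := by omega
        linarith
      omega
    · have h8 := hrel n
      have e2' : (((a * n + g).toNat : ℕ) : ℚ) = ((a * n + g : ℤ) : ℚ) := by
        rw [← e2]; push_cast; rfl
      have e3' : (((a' * n + g').toNat : ℕ) : ℚ) = ((a' * n + g' : ℤ) : ℚ) := by
        rw [← e3]; push_cast; rfl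
      rw [e2', e3']
      exact h8
  have hle' : (cntN F N : ℝ) ≤
      ({q : ℕ | q ≤ P * N + D ∧ q.Prime ∧ ∃ p : ℕ, p.Prime ∧ (d : ℚ) * p - c = v * (d * q - c)}.ncard : ℝ) := by
    exact_mod_cast hle
  have hD0 : (0 : ℝ) ≤ D := Nat.cast_nonneg _
  linarith

/-- **common good elements of a group which acts by dilations at several points** -/
theorem main (R : ℕ) : ∃ B : ℕ, ∀ (G : Type) [CommGroup G] [Countable G] [Infinite G]
    (u : Fin R → G →* ℚ) (c d : Fin R → ℤ), (∀ ρ, Function.Injective (u ρ)) → (∀ ρ, 1 ≤ d ρ) →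
    (∀ ρ γ, Loc (c ρ) (d ρ) (u ρ γ)) → ∀ ε : ℝ, 0 < ε →
    ∃ (S : Finset G) (δ : ℝ), 0 < δ ∧ ∀ F : Finset G, F.Nonempty →
      (∀ s ∈ S, (1 - δ) * F.card ≤ (Set.ncard {γ : G | γ ∈ F ∧ s * γ ∈ F} : ℝ)) →
      (1 / (mR R : ℝ) - ε) * F.card ≤
        (Set.ncard {γ : G | γ ∈ F ∧ ∀ ρ, Good B (c ρ) (d ρ) (u ρ γ)} : ℝ) := by
  classical
  obtain ⟨K, C, hK, h⟩ := classes (mR R + 1)
  refine ⟨C + 1, ?_⟩
  intro G _ _ _ u c d hinj hd hloc ε hε
  obtain ⟨enc, henc⟩ := exists_injective_nat G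
  obtain ⟨n, hn1, hn⟩ := winG enc R K (fun ρ γ => Good (C + 1) (c ρ) (d ρ) (u ρ γ)) (by
    intro m ρ t ht A hA hdis
    rcases Nat.eq_zero_or_pos t.card with h0 | h0
    · refine ⟨∅, empty_subset _, by omega, fun _ => ⟨0, hK⟩, ?_⟩
      intro i hi
      exact absurd hi (notMem_empty _)
    set e := t.orderEmbOfFin rfl with he
    have hemem : ∀ g, e g ∈ t := fun g => t.orderEmbOfFin_mem rfl g
    obtain ⟨α, g, hpos, hal, hadm, hrel⟩ := forms (ι := Fin t.card × Fin K) (c ρ) (d ρ) (hd ρ)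
      ((mR R + 1) * K) (fun x => u ρ (A (e x.1) x.2)) (fun x => hloc ρ _)
    obtain ⟨S, cc, hS, hfr⟩ := h t.card h0 ht
      (fun i k => (α (i, k), g (i, k)))
      (by
        intro x y hxy
        simp only [Prod.mk.injEq] at hxy
        have h3 := hinj ρ (hal _ _ hxy.1)
        simp only at h3
        rcases lt_trichotomy x.1 y.1 with h4 | h4 | h4
        · exact absurd h3 (hdis _ _ (e.strictMono h4) _ _)
        · rw [h4] at h3
          exact Prod.ext h4 (hA _ h3)
        · exact absurd h3.symm (hdis _ _ (e.strictMono h4) _ _))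
      (fun i k => hpos (i, k))
      (by
        intro p hp hle
        obtain ⟨r, hr⟩ := hadm p hp hle
        exact ⟨r, fun i k => hr (i, k)⟩)
    refine ⟨S.map e.toEmbedding, ?_, ?_, Function.extend e cc (fun _ => ⟨0, hK⟩), ?_⟩
    · intro i hi
      obtain ⟨g, _, rfl⟩ := Finset.mem_map.1 hi
      exact hemem g
    · rw [card_map]
      exact hS
    · intro i hi j hj hij
      obtain ⟨g1, hgS, rfl⟩ := Finset.mem_map.1 hi
      obtain ⟨g2, hgS', rfl⟩ := Finset.mem_map.1 hj
      have e1 : (e.toEmbedding : Fin t.card → Fin m) = e := rfl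
      simp only [e1] at hij ⊢
      rw [e.injective.extend_apply, e.injective.extend_apply]
      have h5 : u ρ ((A (e g1) (cc g1))⁻¹ * A (e g2) (cc g2)) =
          u ρ (A (e g2) (cc g2)) / u ρ (A (e g1) (cc g1)) := by
        rw [map_mul, div_eq_mul_inv, mul_comm]
        congr 1
        have h6 : u ρ ((A (e g1) (cc g1))⁻¹) * u ρ (A (e g1) (cc g1)) = 1 := by
          rw [← map_mul, inv_mul_cancel, map_one]
        exact eq_inv_of_mul_eq_one_left h6
      rw [h5]
      exact good_of_cnt (hpos (g1, cc g1)).1 (mem_image.2 ⟨g1, hgS, rfl⟩) (mem_image.2 ⟨g2, hgS', rfl⟩)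
        (fun n => hrel (g1, cc g1) (g2, cc g2) n) hfr) ε hε
  have hSf : {s : G | enc s ≤ n}.Finite := Set.Finite.preimage henc.injOn (Set.finite_Iic n)
  refine ⟨hSf.toFinset, 1 / (n : ℝ), by
    have : (0 : ℝ) < n := by exact_mod_cast hn1
    positivity, fun F hF hinv => ?_⟩
  have h1 := hn F hF (fun s hs => by
    have h2 := hinv s (hSf.mem_toFinset.2 hs)
    refine h2.trans (le_of_eq ?_)
    rw [← Set.ncard_coe_finset]
    congr 2
    ext γ
    rw [mem_coe, mem_filter, Set.mem_ofPred_eq])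
  refine h1.trans (le_of_eq ?_)
  rw [← Set.ncard_coe_finset]
  congr 2
  ext γ
  rw [mem_coe, mem_filter, Set.mem_ofPred_eq]

end Pool.Agent.W2helper64.DP
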